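import Pool.Agent.Helper5.FRC.Defs

/-!
# PROJECT FRC (MP_79b960_co): packet SUBM
-/

namespace Pool.Agent.Helper84.FRC.SUBM

open Finset
open Pool.Agent.Helper5.FRC

theorem dm_sum {V : Type} [DecidableEq V] (A S : Finset V) (t : V → V) (hS : S ⊆ A) :
    dm t S = ∑ x ∈ A, if x ∈ S ∧ t x ∉ S then 1 else 0 := by
  unfold dm
  rw [← Finset.card_filter]
  congr 1
  ext x
  simp only [Finset.mem_filter]
  constructor
  · rintro ⟨h1, h2⟩
    exact ⟨hS h1, h1, h2⟩
  · rintro ⟨-, h1, h2⟩
    exact ⟨h1, h2⟩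

theorem t : SubmStmt := by
  intro V _ _ A S T t ht hS hT
  refine ⟨?_, ?_, ?_⟩
  · rw [dm_sum A (S ∩ T) t (fun x hx => hS (Finset.mem_inter.1 hx).1),
      dm_sum A (S ∪ T) t (Finset.union_subset hS hT), dm_sum A S t hS, dm_sum A T t hT,
      ← Finset.sum_add_distrib, ← Finset.sum_add_distrib]
    refine Finset.sum_le_sum fun x _ => ?_
    simp only [Finset.mem_inter, Finset.mem_union]
    by_cases h1 : x ∈ S <;> by_cases h2 : x ∈ T <;> by_cases h3 : t x ∈ S <;>
      by_cases h4 : t x ∈ T <;> simp [h1, h2, h3, h4]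
  · unfold dm
    refine Finset.card_bij (fun x _ => t x) ?_ ?_ ?_
    · intro x hx
      simp only [Finset.mem_filter, Finset.mem_sdiff, not_and, not_not] at hx ⊢
      obtain ⟨⟨h1, h2⟩, h3⟩ := hx
      have h4 := ht x h1
      refine ⟨h3 h4.1, ?_⟩
      rw [h4.2.1]
      exact h2
    · intro x hx y hy hxy
      simp only [Finset.mem_filter, Finset.mem_sdiff] at hx hy
      have h4 := ht x hx.1.1
      have h5 := ht y hy.1.1
      rw [← h4.2.1, ← h5.2.1, hxy]
    · intro y hy
      simp only [Finset.mem_filter] at hy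
      have h4 := ht y (hS hy.1)
      refine ⟨t y, ?_, h4.2.1⟩
      simp only [Finset.mem_filter, Finset.mem_sdiff, not_and, not_not]
      refine ⟨⟨h4.1, hy.2⟩, fun _ => ?_⟩
      rw [h4.2.1]
      exact hy.1
  · have hsplit := Finset.card_filter_add_card_filter_not (s := S) (fun x => t x ∉ S)
    have heven : Even (S.filter fun x => ¬ t x ∉ S).card := by
      rw [← ZMod.natCast_eq_zero_iff_even, Finset.card_eq_sum_ones, Nat.cast_sum]
      refine Finset.sum_involution (fun x _ => t x) ?_ ?_ ?_ ?_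
      · intro x _
        decide
      · intro x hx _
        exact (ht x (hS (Finset.mem_filter.1 hx).1)).2.2
      · intro x hx
        simp only [Finset.mem_filter, not_not] at hx ⊢
        refine ⟨hx.2, ?_⟩
        rw [(ht x (hS hx.1)).2.1]
        exact hx.1
      · intro x hx
        exact (ht x (hS (Finset.mem_filter.1 hx).1)).2.1
    obtain ⟨k, hk⟩ := heven
    unfold dm
    rw [hk] at hsplit
    omega

end Pool.Agent.Helper84.FRC.SUBM
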